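import Pool.Agent.V11246.NDefs
import Pool.Agent.V11246.Exist

/-!
# A wellordered forcing with the countable chain condition that is not uniformly narrow

The definitions are in `Pool.Agent.V11246.NDefs` and the files it names.
-/

namespace Pool.Agent.Results.MP_637f9c_lc.NotUniform

open FirstOrder FirstOrder.Language
open Pool.Agent.Helper672.Plain (LSet)
open Pool.Agent.H310Cards (IsOmega)
open Pool.Agent.H310NAS (IsWellOrder)
open Pool.Agent.H635Amen (ZF)
open Pool.Agent.V11246

/-- There is a model of ZF with a wellordered forcing `P` that has no antichain of cardinality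
the least uncountable cardinal `k` of the model and that is not uniformly narrow for the first
infinite ordinal `t` of the model. -/
theorem _root_.Pool.Agent.Results.MP_637f9c_lc.NotUniform.result :
    ∃ (N : Type 2) (_ : LSet.Structure N), ZF N ∧ ∃ t k P r : N,
      IsOmega t ∧ IsSuccCard k t ∧ IsForcing r P ∧ (∃ w, IsWellOrder w P) ∧ IsCC r P k ∧
        ¬ UnifNarrow r P t := by
  obtain ⟨N, hL, hZ, k, hk⟩ := Pool.Agent.Helper672.ZFA.V246.exists_omK_zs
  obtain ⟨t, P, r, h1, h2, h3, h4, h5, h6⟩ := hk.final₁
  exact ⟨N, hL, hZ, t, k, P, r, h1, h2, h3, h4, h5, h6⟩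

end Pool.Agent.Results.MP_637f9c_lc.NotUniform
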